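import Pool.Agent.Q8.GC.Main

/-!
The theorem of Gordan and Noether for complete intersections of uniform degree: all maps
`ℓ ^ k : A_i → A_{i+k}` which start in degree at most one, or end in degree at least `σ - 1`
(`σ` the socle degree), have maximal rank.
-/

open MvPolynomial

namespace Pool.Agent.Results.MP_f179e6_ag.FromDegreeOne

/-- Let `K` be a field of characteristic zero and `A = K[x_0, …, x_n] / (f_0, …, f_n)` a complete
intersection of uniform degree `d ≥ 2` (`f_0, …, f_n` is a regular sequence of forms of degree `d`;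
the monomial basis condition is not needed), of socle degree `σ = (n + 1) (d - 1)`.  Then there is
a linear form `ℓ` such that all maps `ℓ ^ k : A_i → A_{i+k}` with `i ≤ 1` or `i + k ≥ σ - 1` are
injective or surjective. -/
theorem result (K : Type*) [Field K] [CharZero K] (n d : ℕ) (hd : 2 ≤ d)
    (f : Fin (n + 1) → MvPolynomial (Fin (n + 1)) K) (hf : ∀ i, (f i).IsHomogeneous d)
    (hreg : RingTheory.Sequence.IsRegular (MvPolynomial (Fin (n + 1)) K) (List.ofFn f)) :
    ∃ ℓ : MvPolynomial (Fin (n + 1)) K, ℓ.IsHomogeneous 1 ∧ ∀ i k : ℕ,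
      (i ≤ 1 ∨ (n + 1) * (d - 1) ≤ i + k + 1) →
        (∀ p : MvPolynomial (Fin (n + 1)) K, p.IsHomogeneous i →
          ℓ ^ k * p ∈ Ideal.span (Set.range f) → p ∈ Ideal.span (Set.range f)) ∨
        (∀ q : MvPolynomial (Fin (n + 1)) K, q.IsHomogeneous (i + k) →
          ∃ p : MvPolynomial (Fin (n + 1)) K, p.IsHomogeneous i ∧
            q - ℓ ^ k * p ∈ Ideal.span (Set.range f)) := by
  have hreg' := H503R3.QCI.reg_of_isWeaklyRegular hreg.toIsWeaklyRegular
  obtain ⟨q, hq, hinj⟩ := Pool.Agent.Q8.GC.core' (a := f)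
    (e := fun _ => d) hf (fun _ => hd) hreg' (fun _ _ _ => le_rfl) (by
      intro i
      rw [Finset.sum_const, Finset.card_univ, Fintype.card_fin, smul_eq_mul]
      exact Nat.mul_le_mul_right _ (Nat.sub_le _ _))
  obtain ⟨φ, hφ, hI⟩ := TH130CI.ci_gor (f := f)
    (d := fun _ => d) hf (fun _ => by omega) hreg'
  have hs : ∑ _i : Fin (n + 1), (d - 1) = (n + 1) * (d - 1) := by
    rw [Finset.sum_const, Finset.card_univ, Fintype.card_fin, smul_eq_mul]
  refine ⟨_, TH130CI.lin_homog q, fun i k hik => ?_⟩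
  refine Pool.Agent.Q8.GC.maps hφ hI hq hinj i k ?_
  rw [hs]
  exact hik

end Pool.Agent.Results.MP_f179e6_ag.FromDegreeOne
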